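import Pool.Agent.Helper41.LD6.Defs
import Pool.Agent.Helper96.LD4.Sy0

/-!
# Project LD6, block H1: the list of the Haar functions, one coordinate
-/

set_option autoImplicit false

namespace Pool.Agent.Helper17.LD6

open Set MeasureTheory
open Pool.Agent.Helper41.LD (haar)
open Pool.Agent.Helper41.LD6
open Pool.Agent.Helper5.LD (haar_meas haar_abs haar_per int_haar)

theorem hr_zero17 : hr 0 = fun _ => 1 := by
  unfold hr
  rw [if_pos rfl]

theorem hr_pos17 {n : ℕ} (h : n ≠ 0) : hr n = haar (Nat.log 2 n) (n - 2 ^ Nat.log 2 n) := by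
  unfold hr
  rw [if_neg h]

theorem idx_lt17 {n : ℕ} (h : n ≠ 0) : 2 ^ Nat.log 2 n ≤ n ∧ n - 2 ^ Nat.log 2 n < 2 ^ Nat.log 2 n := by
  have h1 : 2 ^ Nat.log 2 n ≤ n := Nat.pow_log_le_self 2 h
  have h2 : n < 2 ^ (Nat.log 2 n + 1) := Nat.lt_pow_succ_log_self one_lt_two n
  rw [pow_succ] at h2
  exact ⟨h1, by omega⟩

theorem log_lt17 {K n : ℕ} (h : n ≠ 0) (hn : n < 2 ^ K) : Nat.log 2 n < K := by
  by_contra hc
  have h1 : 2 ^ K ≤ 2 ^ Nat.log 2 n := Nat.pow_le_pow_right (by norm_num) (not_lt.1 hc)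
  have h2 := (idx_lt17 h).1
  omega

theorem log_add17 {k i : ℕ} (hi : i < 2 ^ k) : Nat.log 2 (2 ^ k + i) = k := by
  refine Nat.log_eq_of_pow_le_of_lt_pow (Nat.le_add_right _ _) ?_
  rw [pow_succ]
  omega

theorem hr_gr {K n : ℕ} (hn : n < 2 ^ K) : Gr (2 ^ K) (hr n) := by
  by_cases h : n = 0
  · rw [h, hr_zero17]
    exact ⟨measurable_const, fun _ => by simp, fun _ => rfl, fun _ _ _ => rfl⟩
  · rw [hr_pos17 h]
    refine ⟨haar_meas _ _, haar_abs _ _, haar_per _ _, fun s t hst => ?_⟩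
    push_cast at hst
    exact Pool.Agent.Helper65.LD.haar_coarse (log_lt17 h hn) _ hst

theorem hr_mean (n : ℕ) : ∫ t in (0 : ℝ)..1, hr n t = if n = 0 then 1 else 0 := by
  by_cases h : n = 0
  · rw [h, hr_zero17, if_pos rfl]
    simp
  · rw [hr_pos17 h, if_neg h]
    exact int_haar _ _

theorem hr_orth (n n' : ℕ) : ∫ t in (0 : ℝ)..1, hr n t * hr n' t = if n = n' then vr n else 0 := by
  by_cases h : n = 0
  · by_cases h' : n' = 0
    · rw [h, h', if_pos rfl, hr_zero17]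
      simp [vr]
    · rw [if_neg (fun h2 : n = n' => h' (h2.symm.trans h)), h, hr_zero17]
      simp only [one_mul]
      rw [hr_mean, if_neg h']
  · by_cases h' : n' = 0
    · rw [if_neg (fun h2 => h (h2.trans h')), h', hr_zero17]
      simp only [mul_one]
      rw [hr_mean, if_neg h]
    · rw [hr_pos17 h, hr_pos17 h', Pool.Agent.Helper96.LD4.orth_norm (idx_lt17 h).2 (idx_lt17 h').2]
      by_cases he : n = n'
      · subst he
        rw [if_pos ⟨rfl, rfl⟩, if_pos rfl]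
        rfl
      · rw [if_neg he, if_neg]
        rintro ⟨h1, h2⟩
        apply he
        have h3 := (idx_lt17 h).1
        have h4 := (idx_lt17 h').1
        rw [← h1] at h2 h4
        omega

theorem lv_zero {n : ℕ} : lv n = 0 ↔ n = 0 := by
  unfold lv
  by_cases h : n = 0
  · simp [h]
  · simp [h]

theorem lv_lt {K n : ℕ} (hn : n < 2 ^ K) : lv n < K + 1 := by
  unfold lv
  by_cases h : n = 0
  · rw [if_pos h]
    omega
  · rw [if_neg h]
    have := log_lt17 h hn
    omega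

/-- the sum over a level -/
theorem lev_le17 (K k : ℕ) (F : ℕ → ℝ) (hF : ∀ n, 0 ≤ F n) :
    ∑ n ∈ Finset.range (2 ^ K) with lv n = k + 1, F n ≤ ∑ i ∈ Finset.range (2 ^ k), F (2 ^ k + i) := by
  have h1 : ∑ i ∈ Finset.range (2 ^ k), F (2 ^ k + i) = ∑ n ∈ (Finset.range (2 ^ k)).image (fun i => 2 ^ k + i), F n :=
    (Finset.sum_image (fun a _ b _ h => by
      have h' : 2 ^ k + a = 2 ^ k + b := h
      omega)).symm
  rw [h1]
  refine Finset.sum_le_sum_of_subset_of_nonneg ?_ (fun n _ _ => hF n)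
  intro n hn
  obtain ⟨hn1, hn2⟩ := Finset.mem_filter.1 hn
  have h0 : n ≠ 0 := by
    rintro rfl
    rw [lv_zero.2 rfl] at hn2
    omega
  have h2 : Nat.log 2 n = k := by
    unfold lv at hn2
    rw [if_neg h0] at hn2
    omega
  obtain ⟨h3, h4⟩ := idx_lt17 h0
  rw [h2] at h3 h4
  exact Finset.mem_image.2 ⟨n - 2 ^ k, Finset.mem_range.2 h4, by omega⟩

theorem lev_zero17 (K : ℕ) (F : ℕ → ℝ) (hF : ∀ n, 0 ≤ F n) : ∑ n ∈ Finset.range (2 ^ K) with lv n = 0, F n ≤ F 0 := by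
  have h1 : ∑ n ∈ ({0} : Finset ℕ), F n = F 0 := Finset.sum_singleton _ _
  rw [← h1]
  refine Finset.sum_le_sum_of_subset_of_nonneg ?_ (fun n _ _ => hF n)
  intro n hn
  exact Finset.mem_singleton.2 (lv_zero.1 (Finset.mem_filter.1 hn).2)

theorem haar_sum17 (k : ℕ) (x : ℝ) : ∑ i ∈ Finset.range (2 ^ k), |haar k i x| ≤ 1 := by
  have h4 := Pool.Agent.Helper52.LD.haar_disj k (fun i => if 0 ≤ haar k i x then 1 else -1)
    (fun i => by split_ifs <;> simp) (2 ^ k) x
  have h5 : ∑ i ∈ Finset.range (2 ^ k), (if 0 ≤ haar k i x then (1 : ℝ) else -1) * haar k i x =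
      ∑ i ∈ Finset.range (2 ^ k), |haar k i x| := by
    refine Finset.sum_congr rfl fun i _ => ?_
    split_ifs with h
    · rw [one_mul, abs_of_nonneg h]
    · rw [neg_one_mul, abs_of_neg (not_le.1 h)]
  rw [h5] at h4
  exact (le_abs_self _).trans h4

theorem hr_lev (K l : ℕ) (y : ℝ) : ∑ n ∈ Finset.range (2 ^ K) with lv n = l, |hr n y| ≤ 1 := by
  cases l with
  | zero =>
    refine (lev_zero17 K (fun n => |hr n y|) (fun _ => abs_nonneg _)).trans ?_
    show |hr 0 y| ≤ 1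
    rw [hr_zero17]
    simp
  | succ k =>
    refine (lev_le17 K k (fun n => |hr n y|) (fun _ => abs_nonneg _)).trans ?_
    refine le_trans (le_of_eq ?_) (haar_sum17 k y)
    refine Finset.sum_congr rfl fun i hi => ?_
    have hi' := Finset.mem_range.1 hi
    have h0 : 2 ^ k + i ≠ 0 := by
      have : 0 < 2 ^ k := Nat.pow_pos (by norm_num)
      omega
    show |hr (2 ^ k + i) y| = _
    rw [hr_pos17 h0, log_add17 hi', Nat.add_sub_cancel_left]

theorem vr_nonneg17 (n : ℕ) : 0 ≤ vr n := by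
  unfold vr
  positivity

theorem vr_sum (K l : ℕ) : ∑ n ∈ Finset.range (2 ^ K) with lv n = l, vr n ≤ 1 := by
  cases l with
  | zero =>
    refine (lev_zero17 K vr vr_nonneg17).trans ?_
    simp [vr]
  | succ k =>
    refine (lev_le17 K k vr vr_nonneg17).trans ?_
    have h1 : ∑ i ∈ Finset.range (2 ^ k), vr (2 ^ k + i) = ∑ _i ∈ Finset.range (2 ^ k), (1 / 2 : ℝ) ^ k := by
      refine Finset.sum_congr rfl fun i hi => ?_
      unfold vr
      rw [log_add17 (Finset.mem_range.1 hi)]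
    rw [h1, Finset.sum_const, Finset.card_range, nsmul_eq_mul]
    push_cast
    rw [← mul_pow]
    norm_num

theorem vr_lo {K n : ℕ} (hn : n < 2 ^ K) : (1 / 2) ^ K ≤ vr n ∧ vr n ≤ 1 := by
  unfold vr
  refine ⟨?_, pow_le_one₀ (by norm_num) (by norm_num)⟩
  refine pow_le_pow_of_le_one (by norm_num) (by norm_num) ?_
  by_cases h : n = 0
  · rw [h]
    simp
  · exact (log_lt17 h hn).le

end Pool.Agent.Helper17.LD6
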